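import Pool.Agent.MP_5c28a4_al.H89S.Spec

/-!
Periodic points: from the abelian form to the group form.
-/

set_option autoImplicit false

namespace Pool.Agent.MP_5c28a4_al.H89S

open scoped commutatorElement

namespace RlgA

section Add

variable {G A : Type} [Group G] [AddCommGroup A] {X : Subgroup G} {ζ : G → A}

lemma add_one (h : AddOn X ζ) : ζ 1 = 0 := by
  simpa using h 1 X.one_mem 1 X.one_mem

lemma add_inv (h : AddOn X ζ) {x : G} (hx : x ∈ X) : ζ x⁻¹ = -ζ x := by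
  have := h x hx x⁻¹ (X.inv_mem hx)
  rw [mul_inv_cancel, add_one h] at this
  exact eq_neg_of_add_eq_zero_right this.symm

lemma eq_of (h : AddOn X ζ) {x y : G} (hx : x ∈ X) (hy : y ∈ X) (h0 : ζ (x * y⁻¹) = 0) :
    ζ x = ζ y := by
  rwa [h _ hx _ (X.inv_mem hy), add_inv h hy, add_neg_eq_zero] at h0

lemma of_eq (h : AddOn X ζ) {x y : G} (hx : x ∈ X) (hy : y ∈ X) (h0 : ζ x = ζ y) :
    ζ (x * y⁻¹) = 0 := by
  rw [h _ hx _ (X.inv_mem hy), add_inv h hy, h0, add_neg_cancel]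

lemma add_pow (h : AddOn X ζ) {x : G} (hx : x ∈ X) (n : ℕ) : ζ (x ^ n) = n • ζ x := by
  induction n with
  | zero => simpa using add_one h
  | succ n ih => rw [pow_succ, h _ (X.pow_mem hx n) _ hx, ih, succ_nsmul]

/-- The elements of `X` with value in a subgroup. -/
def pre (h : AddOn X ζ) (B : AddSubgroup A) : Subgroup G where
  carrier := {x | x ∈ X ∧ ζ x ∈ B}
  one_mem' := ⟨X.one_mem, add_one h ▸ B.zero_mem⟩
  mul_mem' ha hb := ⟨X.mul_mem ha.1 hb.1, h _ ha.1 _ hb.1 ▸ B.add_mem ha.2 hb.2⟩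
  inv_mem' ha := ⟨X.inv_mem ha.1, add_inv h ha.1 ▸ B.neg_mem ha.2⟩

lemma comm_le (h : AddOn X ζ) (B : AddSubgroup A) : ⁅X, X⁆ ≤ pre h B :=
  Subgroup.commutator_le.2 fun a ha b hb => by
    have h1 := X.mul_mem ha hb
    have h2 := X.mul_mem h1 (X.inv_mem ha)
    refine ⟨X.mul_mem h2 (X.inv_mem hb), ?_⟩
    rw [commutatorElement_def, h _ h2 _ (X.inv_mem hb), h _ h1 _ (X.inv_mem ha), h _ ha _ hb,
      add_inv h ha, add_inv h hb]
    simp

lemma add_comm' (h : AddOn X ζ) {x : G} (hx : x ∈ ⁅X, X⁆) : ζ x = 0 :=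
  AddSubgroup.mem_bot.1 (comm_le h ⊥ hx).2

lemma rel_pre (h : AddOn X ζ) (B : AddSubgroup A) (S : Set (A ⧸ B)) (hS : S.Finite)
    (h1 : ∀ x ∈ X, (ζ x : A ⧸ B) ∈ S) : (pre h B).relIndex X ≠ 0 := by
  let D : X →* Multiplicative (A ⧸ B) := MonoidHom.mk' (fun x => .ofAdd (ζ x : A ⧸ B))
    (fun a b => by simp only [Subgroup.coe_mul, h _ a.2 _ b.2, QuotientAddGroup.mk_add, ofAdd_add])
  have h2 : (pre h B).subgroupOf X = D.ker := by
    ext x
    rw [Subgroup.mem_subgroupOf, MonoidHom.mem_ker]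
    exact ⟨fun h3 => congrArg Multiplicative.ofAdd ((QuotientAddGroup.eq_zero_iff _).2 h3.2),
      fun h3 => ⟨x.2, (QuotientAddGroup.eq_zero_iff _).1 (Multiplicative.ofAdd.injective h3)⟩⟩
  have h3 : Finite D.range := (hS.image Multiplicative.ofAdd).subset (by
    rintro _ ⟨x, rfl⟩
    exact ⟨_, h1 _ x.2, rfl⟩)
  rw [Subgroup.relIndex, h2]
  exact Subgroup.FiniteIndex.index_ne_zero

end Add

/-- The abelianisation of a normal subgroup as a module over the group ring of the quotient. -/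
lemma sec {G : Type} [Group G] (P : Subgroup G) [P.Normal] :
    ∃ (W : Type) (_ : AddCommGroup W) (_ : Module (QQ (G ⧸ P)) W) (f : G → W), AddOn P f ∧
      (∀ w, ∃ x ∈ P, f x = w) ∧ (∀ x ∈ P, f x = 0 → x ∈ ⁅P, P⁆) ∧
      ∀ g, ∀ x ∈ P, f (g * x * g⁻¹) = MonoidAlgebra.of ℤ (G ⧸ P) g • f x := by
  classical
  let ρ₀ : G →* Module.End ℤ (Additive (Abelianization P)) :=
    { toFun := fun g => (MonoidHom.toAdditive
        (Abelianization.map (MulAut.conjNormal (H := P) g).toMonoidHom)).toIntLinearMap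
      map_one' := by
        refine LinearMap.ext fun w => ?_
        obtain ⟨x, rfl⟩ : ∃ x : P, Additive.ofMul (Abelianization.of x) = w :=
          Quot.exists_rep w
        simp
      map_mul' := fun a b => by
        refine LinearMap.ext fun w => ?_
        obtain ⟨x, rfl⟩ : ∃ x : P, Additive.ofMul (Abelianization.of x) = w :=
          Quot.exists_rep w
        simp }
  have h0 : ∀ (g : G) (x : P), ρ₀ g (.ofMul (Abelianization.of x)) =
      .ofMul (Abelianization.of (MulAut.conjNormal g x)) := fun _ _ => rfl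
  let ρ : Representation ℤ (G ⧸ P) (Additive (Abelianization P)) :=
    QuotientGroup.lift P ρ₀ fun g hg => by
      refine LinearMap.ext fun w => ?_
      obtain ⟨x, rfl⟩ : ∃ x : P, Additive.ofMul (Abelianization.of x) = w := Quot.exists_rep w
      have h1 : MulAut.conjNormal g x = ⟨g, hg⟩ * x * (⟨g, hg⟩ : P)⁻¹ := Subtype.ext rfl
      rw [h0, h1, map_mul Abelianization.of, map_mul Abelianization.of, map_inv Abelianization.of,
        mul_inv_cancel_comm]
      rfl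
  refine ⟨ρ.asModule, inferInstance, inferInstance, fun x => if h : x ∈ P then
    ρ.asModuleEquiv.symm (.ofMul (Abelianization.of ⟨x, h⟩)) else 0, fun x hx y hy => ?_,
    fun w => ?_, fun x hx h => ?_, fun g x hx => ?_⟩
  · simp only [dif_pos hx, dif_pos hy, dif_pos (P.mul_mem hx hy)]
    rw [← map_add, ← ofMul_mul, ← map_mul]
    rfl
  · obtain ⟨x, hx⟩ : ∃ x : P, Additive.ofMul (Abelianization.of x) = ρ.asModuleEquiv w :=
      Quot.exists_rep _
    exact ⟨x, x.2, by simp only [dif_pos x.2, Subtype.coe_eta, hx, LinearEquiv.symm_apply_apply]⟩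
  · simp only [dif_pos hx, EmbeddingLike.map_eq_zero_iff, ofMul_eq_zero] at h
    have h1 : (⟨x, hx⟩ : P) ∈ commutator P := Abelianization.ker_of P ▸ h
    rw [← P.map_subtype_commutator]
    exact ⟨_, h1, rfl⟩
  · simp only [dif_pos hx, dif_pos (Subgroup.Normal.conj_mem inferInstance x hx g)]
    rw [← Representation.asModuleEquiv_symm_map_rho]
    rfl

section Mag

variable {Γ I W : Type} [Group Γ] [Fintype I] [AddCommGroup W] [Module (QQ Γ) W] {γ : I → Γ}

omit [Fintype I] in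
lemma cr_one {c : FreeGroup I → W}
    (h : ∀ f g, c (f * g) = c f + MonoidAlgebra.of ℤ Γ (FreeGroup.lift γ f) • c g) : c 1 = 0 := by
  have := h 1 1
  rw [mul_one, map_one, map_one, one_smul] at this
  simpa using this

omit [Fintype I] in
lemma cr_ext {c c' : FreeGroup I → W}
    (h : ∀ f g, c (f * g) = c f + MonoidAlgebra.of ℤ Γ (FreeGroup.lift γ f) • c g)
    (h' : ∀ f g, c' (f * g) = c' f + MonoidAlgebra.of ℤ Γ (FreeGroup.lift γ f) • c' g)
    (h1 : ∀ i, c (.of i) = c' (.of i)) (f : FreeGroup I) : c f = c' f := by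
  induction f using FreeGroup.induction_on with
  | C1 => rw [cr_one h, cr_one h']
  | of i => exact h1 i
  | inv_of i hi =>
    have h2 := h (FreeGroup.of i)⁻¹ (.of i)
    have h3 := h' (FreeGroup.of i)⁻¹ (.of i)
    rw [inv_mul_cancel] at h2 h3
    rw [cr_one h, hi] at h2
    rw [cr_one h'] at h3
    exact add_right_cancel (h2.symm.trans h3)
  | mul f g hf hg => rw [h, h', hf, hg]

/-- The relation module as a quotient of the kernel. -/
lemma mag (hM : SMag) (hγ : Subgroup.closure (Set.range γ) = ⊤) : ∃ e : FreeGroup I → VV γ,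
    AddOn (FreeGroup.lift γ).ker e ∧
    (∀ h, ∀ f ∈ (FreeGroup.lift γ).ker,
      e (h * f * h⁻¹) = MonoidAlgebra.of ℤ Γ (FreeGroup.lift γ h) • e f) ∧
    (∀ v, ∃ f ∈ (FreeGroup.lift γ).ker, e f = v) ∧
    (∀ f ∈ (FreeGroup.lift γ).ker, e f = 0 → f ∈ ⁅(FreeGroup.lift γ).ker, (FreeGroup.lift γ).ker⁆) ∧
    ∀ (W : Type) [AddCommGroup W] [Module (QQ Γ) W] (c : FreeGroup I → W)
      (φ : (I → QQ Γ) →ₗ[QQ Γ] W),
      (∀ f g, c (f * g) = c f + MonoidAlgebra.of ℤ Γ (FreeGroup.lift γ f) • c g) →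
      (∀ i, φ (fun k => open Classical in if k = i then 1 else 0) = c (.of i)) →
      ∀ f ∈ (FreeGroup.lift γ).ker, c f = φ (e f) := by
  classical
  obtain ⟨d, h1, h2, h3, h4, h5⟩ := hM Γ I γ hγ
  have h6 : ∀ f ∈ (FreeGroup.lift γ).ker, d f ∈ VV γ := fun f hf => by
    rw [VV, LinearMap.mem_ker, h3, MonoidHom.mem_ker.1 hf, map_one, sub_self]
  obtain ⟨e, he⟩ : ∃ e : FreeGroup I → VV γ, ∀ f ∈ (FreeGroup.lift γ).ker, (e f).1 = d f :=
    ⟨fun f => if h : f ∈ (FreeGroup.lift γ).ker then ⟨d f, h6 f h⟩ else 0, fun f hf => by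
      simp only [dif_pos hf]⟩
  refine ⟨e, fun f hf g hg => Subtype.ext ?_, fun h f hf => Subtype.ext ?_, fun v => ?_,
    fun f hf h => h5 f hf (by rw [← he f hf, h]; rfl), fun W _ _ c φ hc hφ f hf => ?_⟩
  · rw [Submodule.coe_add, he _ (mul_mem hf hg), he f hf, he g hg, h1, MonoidHom.mem_ker.1 hf,
      map_one, one_smul]
  · have h7 := h1 h h⁻¹
    rw [mul_inv_cancel, cr_one h1] at h7
    rw [Submodule.coe_smul, he _ (Subgroup.Normal.conj_mem inferInstance f hf h), he f hf, h1, h1,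
      map_mul, MonoidHom.mem_ker.1 hf, mul_one, add_right_comm, ← h7, zero_add]
  · obtain ⟨f, hf, h⟩ := h4 v.1 v.2
    exact ⟨f, hf, Subtype.ext ((he f hf).trans h)⟩
  · rw [he f hf]
    refine cr_ext (c' := fun f => φ (d f)) hc (fun f g => by rw [h1, map_add, map_smul])
      (fun i => ?_) f
    rw [← hφ, h2]
    exact congrArg φ (funext fun k => by simp [Pi.single_apply])

end Mag

/-- The cube property gives a syndetic set. -/
lemma synd {α A : Type} [Monoid α] [AddCommGroup A] (D : Submonoid α) (β : α → A)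
    (hβ : ∀ x ∈ D, ∀ y ∈ D, β (x * y) = β x + β y) (hs : ∀ a, ∃ x ∈ D, β x = a) {E : Set α}
    {N : ℕ} (h : Cube N D E) : ∃ T : Finset A, ∀ a, ∃ t ∈ T, a + t ∈ β '' E := by
  classical
  by_contra hT
  push Not at hT
  have h1 : ∀ k, ∃ l : List α, l.length = k ∧ (∀ b ∈ l, b ∈ D) ∧
      ∀ J : List α, J.Sublist l → J ≠ [] → β J.prod ∉ β '' E := by
    intro k
    induction k with
    | zero => exact ⟨[], rfl, by simp, fun J hJ h => (h (List.sublist_nil.1 hJ)).elim⟩
    | succ k ih =>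
      obtain ⟨l, h1, h2, h3⟩ := ih
      obtain ⟨a, ha⟩ := hT (l.sublists.map fun J => β J.prod).toFinset
      obtain ⟨b, hb, rfl⟩ := hs a
      refine ⟨b :: l, by simp [h1], by simpa using ⟨hb, h2⟩, fun J hJ hne => ?_⟩
      rcases List.sublist_cons_iff.1 hJ with h4 | ⟨J', rfl, h4⟩
      · exact h3 J h4 hne
      · rw [List.prod_cons, hβ b hb _ (D.list_prod_mem fun x hx => h2 x (h4.subset hx))]
        exact ha _ (List.mem_toFinset.2 (List.mem_map.2 ⟨J', List.mem_sublists.2 h4, rfl⟩))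
  obtain ⟨l, h2, h3, h4⟩ := h1 N
  obtain ⟨J, h5, h6, h7⟩ := h l h2.ge h3
  exact h4 J h5 h6 ⟨_, h7, rfl⟩

lemma emb {n r : ℕ} (hn : 0 < n) : ∃ ι : ZMod r →+ ZMod (n * r), Function.Injective ι := by
  refine ⟨ZMod.lift r ⟨(AddMonoidHom.mulLeft (n : ZMod (n * r))).comp (Int.castAddHom _), ?_⟩,
    ZMod.lift_injective r |>.2 fun m hm => ?_⟩
  · simp only [AddMonoidHom.comp_apply, AddMonoidHom.coe_mulLeft, Int.coe_castAddHom,
      Int.cast_natCast]
    rw [← Nat.cast_mul, ZMod.natCast_self]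
  · simp only [AddMonoidHom.comp_apply, AddMonoidHom.coe_mulLeft, Int.coe_castAddHom] at hm
    have h1 : (((n : ℤ) * m : ℤ) : ZMod (n * r)) = 0 := by simpa using hm
    rw [ZMod.intCast_zmod_eq_zero_iff_dvd, Nat.cast_mul,
      Int.mul_dvd_mul_iff_left (by exact_mod_cast hn.ne')] at h1
    exact (ZMod.intCast_zmod_eq_zero_iff_dvd _ _).2 h1

/-- The commutator form. -/
lemma form (hC : BCom) {G W A : Type} [Group G] [AddCommGroup W] [AddCommGroup A] {P : Subgroup G}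
    {f : G → W} (h1 : AddOn P f) (h2 : ∀ w, ∃ x ∈ P, f x = w) (h3 : ∀ x ∈ P, f x = 0 → x ∈ ⁅P, P⁆)
    {j : ℕ} {ζ : G → A} (h4 : AddOn (P.lowerCentralSeries j) ζ)
    (h5 : ∀ x ∈ P.lowerCentralSeries (j + 1), ζ x = 0) :
    ∃ B : MultilinearMap ℤ (fun _ : Fin (j + 1) => W) A, ∀ x : Fin (j + 1) → G, (∀ l, x l ∈ P) →
      B (fun l => f (x l)) = ζ (lc j x) := by
  choose s hs hs' using h2
  have hu : ∀ (x : Fin (j + 1) → G) l a, (∀ l, x l ∈ P) → a ∈ P →
      ∀ l', Function.update x l a l' ∈ P := fun x l a hx ha l' => by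
    rw [Function.update_apply]
    split_ifs
    · exact ha
    · exact hx l'
  have ha : ∀ (x : Fin (j + 1) → G) l, (∀ l, x l ∈ P) →
      AddOn P fun a => ζ (lc j (Function.update x l a)) := fun x l hx a ha b hb => by
    have h6 := hC.mem G P j _ (hu x l a hx ha)
    have h7 := hC.mem G P j _ (hu x l b hx hb)
    have h8 := h5 _ (hC.mul G P j x l a b hx ha hb)
    rw [h4 _ (hC.mem G P j _ (hu x l _ hx (mul_mem ha hb))) _ (inv_mem (mul_mem h6 h7)),
      add_inv h4 (mul_mem h6 h7), h4 _ h6 _ h7, add_neg_eq_zero] at h8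
    exact h8
  have hb : ∀ (x : Fin (j + 1) → G) l a b, (∀ l, x l ∈ P) → a ∈ P → b ∈ P → f a = f b →
      ζ (lc j (Function.update x l a)) = ζ (lc j (Function.update x l b)) :=
    fun x l a b hx ha' hb' hab => eq_of (ha x l hx) ha' hb' (add_comm' (ha x l hx)
      (h3 _ (mul_mem ha' (inv_mem hb')) (of_eq h1 ha' hb' hab)))
  have hc : ∀ (w : Fin (j + 1) → W) l a,
      (fun l' => s (Function.update w l a l')) = Function.update (fun l' => s (w l')) l (s a) :=
    fun w l a => Function.comp_update s w l a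
  have hd : ∀ (w : Fin (j + 1) → W) l a b, ζ (lc j fun l' => s (Function.update w l (a + b) l')) =
      ζ (lc j fun l' => s (Function.update w l a l')) +
        ζ (lc j fun l' => s (Function.update w l b l')) := fun w l a b => by
    rw [hc, hc, hc, hb _ l _ (s a * s b) (fun _ => hs _) (hs _) (mul_mem (hs _) (hs _))
      (by rw [h1 _ (hs _) _ (hs _), hs', hs', hs'])]
    exact ha _ l (fun _ => hs _) _ (hs _) _ (hs _)
  refine ⟨MultilinearMap.mk' (fun w => ζ (lc j fun l => s (w l))) hd (fun w l c a =>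
    map_zsmul (AddMonoidHom.mk' (fun a => ζ (lc j fun l' => s (Function.update w l a l')))
      (hd w l)) c a), fun x hx => ?_⟩
  have he : ∀ S : Finset (Fin (j + 1)),
      ζ (lc j (S.piecewise (fun l => s (f (x l))) x)) = ζ (lc j x) := fun S => by
    induction S using Finset.induction_on with
    | empty => rw [Finset.piecewise_empty]
    | insert l S hl ih =>
      rw [Finset.piecewise_insert, hb _ l _ (x l) (fun l' => ?_) (hs _) (hx l) (hs' _),
        ← ih, ← S.piecewise_eq_of_notMem (fun l => s (f (x l))) x hl, Function.update_eq_self]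
      by_cases h : l' ∈ S
      · rw [S.piecewise_eq_of_mem _ _ h]
        exact hs _
      · rw [S.piecewise_eq_of_notMem _ _ h]
        exact hx _
  simpa using he Finset.univ

end RlgA

open RlgA in
theorem rlg (hV : BVn) (hC : BCom) (hM : SMag) (hF : SFGab) (hR : SRL) : SRLG := by
  intro G I _ _ g P n r j N hg hP hn hpow hr J _ ζ hζ hζ' 𝒢 h𝒢 hcube
  classical
  have _ := hP.1
  obtain ⟨γ, hγ⟩ : ∃ γ : I → G ⧸ P, γ = fun i => (g i : G ⧸ P) := ⟨_, rfl⟩
  have hl : ∀ y, All P y → ∀ x, ((FreeGroup.lift (y * g) x : G) : G ⧸ P) = FreeGroup.lift γ x :=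
    fun y hy => DFunLike.congr_fun (show (QuotientGroup.mk' P).comp (FreeGroup.lift (y * g)) =
      FreeGroup.lift γ from FreeGroup.ext_hom _ _ fun i => by
        simp [hγ, (QuotientGroup.eq_one_iff _).2 (hy i)])
  have hl1 : ∀ x, ((FreeGroup.lift g x : G) : G ⧸ P) = FreeGroup.lift γ x := by
    simpa using hl 1 (fun _ => P.one_mem)
  have hk : P.comap (FreeGroup.lift g) = (FreeGroup.lift γ).ker := by
    ext x
    rw [Subgroup.mem_comap, MonoidHom.mem_ker, ← hl1, QuotientGroup.eq_one_iff]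
  have hP' : ∀ y, All P y → ∀ x ∈ (FreeGroup.lift γ).ker, FreeGroup.lift (y * g) x ∈ P :=
    fun y hy x hx => (QuotientGroup.eq_one_iff _).1 ((hl y hy x).trans hx)
  have hP1 : ∀ x ∈ (FreeGroup.lift γ).ker, FreeGroup.lift g x ∈ P := fun x hx => hk.ge hx
  have hcl : Subgroup.closure (Set.range γ) = ⊤ := by
    have h1 := congrArg (Subgroup.map (QuotientGroup.mk' P)) hg
    rw [Subgroup.map_sup, QuotientGroup.map_mk'_self, sup_bot_eq, MonoidHom.map_closure,
      Subgroup.map_top_of_surjective _ (QuotientGroup.mk'_surjective P), ← Set.range_comp] at h1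
    rw [hγ]
    exact h1
  have hsurj : Function.Surjective (FreeGroup.lift γ) := by
    rw [← MonoidHom.range_eq_top, FreeGroup.range_lift_eq_closure, hcl]
  have hvn : VN (G ⧸ P) := by
    have h1 := hV.map G _ _ P (QuotientGroup.mk'_surjective P) hP
    rwa [QuotientGroup.map_mk'_self] at h1
  obtain ⟨W, _, _, f, f1, f2, f3, f4⟩ := sec P
  obtain ⟨e, e1, e2, e3, e4, e5⟩ := mag hM hcl
  have fg : AddOn (FreeGroup.lift γ).ker fun x => f (FreeGroup.lift g x) := fun x hx x' hx' => by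
    simp only [map_mul, f1 _ (hP1 x hx) _ (hP1 x' hx')]
  have hw : ∀ x ∈ (FreeGroup.lift γ).ker, ∀ x' ∈ (FreeGroup.lift γ).ker, e x = e x' →
      f (FreeGroup.lift g x) = f (FreeGroup.lift g x') := fun x hx x' hx' h =>
    eq_of fg hx hx' (add_comm' fg (e4 _ (mul_mem hx (inv_mem hx')) (of_eq e1 hx hx' h)))
  obtain ⟨π, hπ⟩ : ∃ π : VV γ →ₗ[QQ (G ⧸ P)] W, ∀ x ∈ (FreeGroup.lift γ).ker,
      π (e x) = f (FreeGroup.lift g x) := by
    choose σ h1 h2 using e3
    let π₁ : VV γ →+ W := AddMonoidHom.mk' (fun v => f (FreeGroup.lift g (σ v))) fun v v' => by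
      rw [hw _ (h1 _) _ (mul_mem (h1 v) (h1 v')) (by rw [e1 _ (h1 _) _ (h1 _), h2, h2, h2])]
      exact fg _ (h1 _) _ (h1 _)
    have h3 : ∀ v, π₁ v = f (FreeGroup.lift g (σ v)) := fun _ => rfl
    refine ⟨⟨π₁, fun s v => ?_⟩, fun x hx => hw _ (h1 _) _ hx (h2 _)⟩
    change π₁ (s • v) = s • π₁ v
    induction s using MonoidAlgebra.induction_on with
    | of c =>
      obtain ⟨h, rfl⟩ := hsurj c
      rw [h3, h3, hw _ (h1 _) _ (Subgroup.Normal.conj_mem inferInstance _ (h1 v) h)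
        (by rw [e2 h _ (h1 v), h2, h2]), map_mul, map_mul, map_inv, f4 _ _ (hP1 _ (h1 v)), hl1]
    | add a b ha hb => rw [add_smul, map_add, ha, hb, add_smul]
    | smul c a ha => rw [smul_assoc, map_zsmul, ha, smul_assoc]
  obtain ⟨β, hβ⟩ : ∃ β : (I → G) → (I → QQ (G ⧸ P)) →ₗ[QQ (G ⧸ P)] W,
      β = fun y => Fintype.linearCombination _ fun i => f (y i) := ⟨_, rfl⟩
  have hkey : ∀ y, All P y → ∀ x ∈ (FreeGroup.lift γ).ker,
      f (FreeGroup.lift (y * g) x) = π (e x) + β y (e x) := fun y hy x hx => by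
    have h1 : ∀ x, FreeGroup.lift (y * g) x * (FreeGroup.lift g x)⁻¹ ∈ P := fun x => by
      rw [← div_eq_mul_inv, ← QuotientGroup.eq_iff_div_mem, hl y hy, hl1]
    have h2 := e5 W (fun x => f (FreeGroup.lift (y * g) x * (FreeGroup.lift g x)⁻¹)) (β y)
      (fun a b => by
        rw [← hl y hy, ← f4 _ _ (h1 b), add_comm,
          ← f1 _ (Subgroup.Normal.conj_mem inferInstance _ (h1 b) _) _ (h1 a)]
        congr 1
        simp only [map_mul]
        group) (fun i => by simp [hβ, Fintype.linearCombination_apply]) x hx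
    rw [← h2, hπ x hx, f1 _ (hP' y hy x hx) _ (inv_mem (hP1 x hx)), add_inv f1 (hP1 x hx)]
    abel
  obtain ⟨T, hT⟩ := synd (E := 𝒢) (N := N)
    ⟨⟨{b | All P b}, fun ha hb i => P.mul_mem (ha i) (hb i)⟩, fun _ => P.one_mem⟩ β
    (fun x hx y hy => by
      refine LinearMap.ext fun v => ?_
      simp only [hβ, LinearMap.add_apply, Fintype.linearCombination_apply, ← Finset.sum_add_distrib,
        ← smul_add, Pi.mul_apply]
      exact Finset.sum_congr rfl fun i _ => by rw [f1 _ (hx i) _ (hy i)])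
    (fun φ => by
      choose s h1 h2 using f2
      refine ⟨fun i => s (φ fun k => if i = k then 1 else 0), fun i => h1 _,
        LinearMap.ext fun v => ?_⟩
      simp only [hβ, Fintype.linearCombination_apply, h2]
      exact (LinearMap.pi_apply_eq_sum_univ φ v).symm) hcube
  have hn' : 0 < n * r := Nat.mul_pos hn hr.pos
  have hW : ∀ w : W, (n * r) • w = 0 := fun w => by
    obtain ⟨x, hx, rfl⟩ := f2 w
    rw [mul_nsmul, ← add_pow f1 hx, add_comm' f1 (hpow x hx), nsmul_zero]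
  obtain ⟨ι, hι⟩ := emb (r := r) hn
  choose B hB using fun a => form hC f1 f2 f3 (hζ a) (hζ' a)
  obtain ⟨Δ, hΔ, hΔ', hE⟩ := hR _ I γ hvn hcl W (n * r) hn' hW π (j + 1) J
    (fun a => ι.toIntLinearMap.compMultilinearMap (B a)) (β '' 𝒢) T hT
  obtain ⟨U, hU⟩ : ∃ U, U = Submodule.span ℤ {x : VV γ | ∃ δ ∈ Δ, ∃ x' : VV γ,
    x = (MonoidAlgebra.of ℤ (G ⧸ P) δ - 1) • x'} := ⟨_, rfl⟩
  rw [← hU] at hE
  have hU1 : ∀ δ ∈ Δ, ∀ v, (MonoidAlgebra.of ℤ (G ⧸ P) δ - 1) • v ∈ U := fun δ h v =>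
    hU ▸ Submodule.subset_span ⟨δ, h, v, rfl⟩
  have hU2 : ∀ c, ∀ u ∈ U, MonoidAlgebra.of ℤ (G ⧸ P) c • u ∈ U := fun c u hu => by
    rw [hU] at hu
    induction hu using Submodule.span_induction with
    | mem x hx =>
      obtain ⟨δ, h, v, rfl⟩ := hx
      have h1 := hU1 _ (hΔ.conj_mem δ h c) (MonoidAlgebra.of ℤ (G ⧸ P) c • v)
      rwa [smul_smul, sub_mul, ← map_mul, inv_mul_cancel_right, map_mul, one_mul,
        ← mul_sub_one, ← smul_smul] at h1
    | zero => simp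
    | add x y _ _ hx hy =>
      rw [smul_add]
      exact U.add_mem hx hy
    | smul a x _ hx =>
      rw [smul_comm]
      exact U.smul_mem a hx
  obtain ⟨U', hU'⟩ : ∃ U' : AddSubgroup (VV γ), ∀ v, v ∈ U' ↔ ∃ u ∈ U, ∃ w, u + (n * r) • w = v :=
    ⟨U.toAddSubgroup ⊔ (nsmulAddMonoidHom (n * r)).range, fun v => by
      rw [AddSubgroup.mem_sup]
      exact ⟨fun ⟨u, hu, _, ⟨w, rfl⟩, h⟩ => ⟨u, hu, w, h⟩,
        fun ⟨u, hu, w, h⟩ => ⟨u, hu, _, ⟨w, rfl⟩, h⟩⟩⟩
  have _ : Countable (VV γ) := Function.Surjective.countable (f := e) fun v =>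
    (e3 v).imp fun _ h => h.2
  obtain ⟨z, hz⟩ := (Set.to_countable {v : Fin (j + 1) → VV γ | ∀ l, v l ∈ U}).exists_eq_range
    ⟨0, fun _ => U.zero_mem⟩
  have hy : ∀ k, ∃ y ∈ 𝒢, ∀ a, ∀ i < k, B a (fun l => π (z i l) + β y (z i l)) = 0 := fun k => by
    obtain ⟨_, ⟨y, h1, rfl⟩, h2⟩ := hE ((Finset.range k).image z) fun v hv => by
      obtain ⟨i, -, rfl⟩ := Finset.mem_image.1 hv
      exact ⟨0, hz.ge ⟨i, rfl⟩ 0⟩
    exact ⟨y, h1, fun a i hi => hι ((h2 a _ (Finset.mem_image_of_mem z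
      (Finset.mem_range.2 hi))).trans (map_zero ι).symm)⟩
  choose y hy hy' using hy
  rw [hk]
  refine ⟨pre e1 U', y, ⟨fun x hx h => ⟨Subgroup.Normal.conj_mem inferInstance _ hx.1 h, ?_⟩⟩,
    fun x hx => hx.1, ?_, hy, fun x hx a => ?_⟩
  · obtain ⟨u, hu, w, h1⟩ := (hU' _).1 hx.2
    rw [e2 h x hx.1, ← h1, smul_add, smul_comm]
    exact (hU' _).2 ⟨_, hU2 _ u hu, _, rfl⟩
  · obtain ⟨T₀, h1, h2⟩ := hF (FreeGroup I) inferInstance _ (hk ▸ hV.comap _ _ (FreeGroup.lift g) P hP)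
    obtain ⟨F, hF⟩ : ∃ F, F = Set.range fun p : ((G ⧸ P) ⧸ Δ) × T₀ =>
      ((MonoidAlgebra.of ℤ (G ⧸ P) p.1.out • e p.2 : VV γ) : VV γ ⧸ U') := ⟨_, rfl⟩
    have _ : Finite F := hF ▸ (Set.finite_range _).to_subtype
    have h3 : Finite (AddSubgroup.closure F) := AddCommGroup.finite_of_fg_isAddTorsion _ fun v => by
      refine isOfFinAddOrder_iff_nsmul_eq_zero.2 ⟨_, hn', Subtype.ext ?_⟩
      obtain ⟨w, hw⟩ := QuotientAddGroup.mk_surjective v.1
      rw [AddSubgroupClass.coe_nsmul, ← hw, ← QuotientAddGroup.mk_nsmul]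
      exact (QuotientAddGroup.eq_zero_iff _).2 ((hU' _).2 ⟨0, U.zero_mem, w, zero_add _⟩)
    refine rel_pre e1 U' (AddSubgroup.closure F) h3 fun x hx => (h2.trans (sup_le ?_
      (comm_le e1 ((AddSubgroup.closure F).comap (QuotientAddGroup.mk' U')))) hx).2
    refine (Subgroup.closure_le _).2 fun x hx => ?_
    obtain ⟨t, ht, h4⟩ := Group.mem_conjugatesOfSet_iff.1 hx
    obtain ⟨h, rfl⟩ := isConj_iff.1 h4
    refine ⟨Subgroup.Normal.conj_mem inferInstance _ (h1 t ht) h, ?_⟩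
    obtain ⟨δ, hδ⟩ := QuotientGroup.mk_out_eq_mul Δ (FreeGroup.lift γ h)
    have h5 := hU1 _ (hΔ.conj_mem _ δ.2 (FreeGroup.lift γ h))
      (MonoidAlgebra.of ℤ (G ⧸ P) (FreeGroup.lift γ h) • e t)
    have h6 : ∀ (a b : QQ (G ⧸ P)) (v : VV γ), (a - b) • v = a • v - b • v := fun a b v =>
      sub_smul a b v
    rw [h6, one_smul, smul_smul, ← map_mul, inv_mul_cancel_right, ← hδ] at h5
    rw [AddSubgroup.mem_comap, e2 h t (h1 t ht), QuotientAddGroup.mk'_apply,
      ← QuotientAddGroup.eq_iff_sub_mem.2 ((hU' _).2 ⟨_, h5, 0, by rw [nsmul_zero, add_zero]⟩)]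
    exact AddSubgroup.subset_closure (hF.ge ⟨(_, ⟨t, ht⟩), rfl⟩)
  · have h1 : ∀ k i, (pre e1 U').lowerCentralSeries i ≤
        (P.lowerCentralSeries i).comap (FreeGroup.lift (y k * g)) := fun k i => by
      rw [← Subgroup.map_le_iff_le_comap, Subgroup.map_lowerCentralSeries]
      refine Subgroup.lowerCentralSeries_mono _ ?_
      rintro _ ⟨x, hx, rfl⟩
      exact hP' _ (h𝒢 _ (hy k)) x hx.1
    let H : Subgroup (FreeGroup I) :=
      { carrier := {x | (∀ k, FreeGroup.lift (y k * g) x ∈ P.lowerCentralSeries j) ∧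
          ∀ᶠ k in Filter.atTop, ζ a (FreeGroup.lift (y k * g) x) = 0}
        one_mem' := ⟨fun k => by simp, .of_forall fun k => by rw [map_one, add_one (hζ a)]⟩
        mul_mem' := fun ha hb => ⟨fun k => map_mul (FreeGroup.lift (y k * g)) _ _ ▸
          mul_mem (ha.1 k) (hb.1 k), (ha.2.and hb.2).mono fun k h => by
            rw [map_mul, hζ a _ (ha.1 k) _ (hb.1 k), h.1, h.2, add_zero]⟩
        inv_mem' := fun ha => ⟨fun k => map_inv (FreeGroup.lift (y k * g)) _ ▸ inv_mem (ha.1 k),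
          ha.2.mono fun k h => by rw [map_inv, add_inv (hζ a) (ha.1 k), h, neg_zero]⟩ }
    have h2 := hC.gen _ (pre e1 U' : Set (FreeGroup I)) j
    rw [Subgroup.closure_eq] at h2
    refine (h2.trans (sup_le ((Subgroup.closure_le H).2 ?_) fun x hx => ⟨fun k => h1 k j
      (Subgroup.lowerCentralSeries_antitone _ j.le_succ hx),
      .of_forall fun k => hζ' a _ (h1 k _ hx)⟩) hx).2
    rintro _ ⟨x, hx, rfl⟩
    refine ⟨fun k => h1 k j (hC.mem _ _ j x hx), ?_⟩
    choose u hu w h3 using fun l => (hU' _).1 (hx l).2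
    obtain ⟨i, rfl⟩ := hz.le hu
    refine (Filter.eventually_gt_atTop i).mono fun k hi => ?_
    rw [hC.map, ← hB a _ fun l => hP' _ (h𝒢 _ (hy k)) _ (hx l).1, ← hy' k a i hi]
    refine congrArg _ (funext fun l => ?_)
    rw [hkey _ (h𝒢 _ (hy k)) _ (hx l).1, ← h3, map_add, map_nsmul, hW, add_zero, Submodule.coe_add,
      map_add, AddSubmonoidClass.coe_nsmul, map_nsmul, hW, add_zero]

end Pool.Agent.MP_5c28a4_al.H89S
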